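import Pool.Agent.MNF.Main

set_option autoImplicit false

namespace Pool.Agent.Results.MP_a05498_al.RootsOfProper

/-- Let `G` be a locally finite group which is not an FC-group although all its proper subgroups are,
and suppose that `G` has no infinite simple quotient. If `G` is generated by the elements whose
`e`-th power lies in some fixed proper subgroup `H` (for instance, if `G` is generated by elements of
bounded order), then `G` is not perfect. -/
theorem result (G : Type*) [Group G]
    (hlf : ∀ s : Finset G, (Subgroup.closure (s : Set G) : Set G).Finite)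
    (hnfc : ¬ (∀ g : G, {x : G | IsConj g x}.Finite))
    (hmin : ∀ H : Subgroup G, H ≠ ⊤ → ∀ h : H, {x : H | IsConj h x}.Finite)
    (hsimple : ∀ (M : Subgroup G) [M.Normal], IsSimpleGroup (G ⧸ M) → Finite (G ⧸ M))
    (H : Subgroup G) (hH : H ≠ ⊤) (e : ℕ) (he : 0 < e)
    (hgen : Subgroup.closure {g : G | g ^ e ∈ H} = ⊤) : commutator G ≠ ⊤ :=
  Pool.Agent.MNF.commutator_ne_top_of_roots G hlf hnfc hmin hsimple H hH e he hgen

end Pool.Agent.Results.MP_a05498_al.RootsOfProper
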